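import Mathlib

namespace Pool.Agent.Results.MP_8f3806_al.TwinFree
open Set Module
open scoped commutatorElement

/-- Closed neighbourhood. -/
def nb {n : ℕ} (Γ : SimpleGraph (Fin n)) (v : Fin n) : Set (Fin n) := {w | w = v ∨ Γ.Adj v w}

open Classical in
/-- The element of `G^V` equal to `g` on `S` and to `1` elsewhere. -/
noncomputable def pw {n : ℕ} {G : Type} [Group G] (g : G) (S : Set (Fin n)) : Fin n → G :=
  fun w => if w ∈ S then g else 1

/-- The graph power. -/
def graphPow {n : ℕ} (G : Type) [Group G] (Γ : SimpleGraph (Fin n)) : Subgroup (Fin n → G) :=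
  Subgroup.closure {x | ∃ g v, x = pw g (nb Γ v)}

/-- The graph is `G`-RA. -/
def IsRA {n : ℕ} (G : Type) [Group G] (Γ : SimpleGraph (Fin n)) : Prop :=
  Subgroup.pi univ (fun _ => commutator G) ≤ graphPow G Γ

/-- The subgroup generated by the basic commutators. -/
def commB {n : ℕ} (G : Type) [Group G] (Γ : SimpleGraph (Fin n)) : Subgroup (Fin n → G) :=
  Subgroup.closure {x | ∃ g h v w, x = pw g (nb Γ v) * pw h (nb Γ w) * (pw g (nb Γ v))⁻¹ *
    (pw h (nb Γ w))⁻¹}

/-- `d` is the sequence of elementary divisors of the RA matrix: a divisibility chain such that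
the row lattice is spanned by the `d i • b i` for a basis `b` of `ℤ^V`. -/
def IsSmith {n : ℕ} (Γ : SimpleGraph (Fin n)) (d : Fin n → ℕ) : Prop :=
  (∀ i j, i ≤ j → d i ∣ d j) ∧ ∃ b : Basis (Fin n) ℤ (Fin n → ℤ),
    Submodule.span ℤ {x | ∃ u v, x = (nb Γ u ∩ nb Γ v).indicator 1} =
      Submodule.span ℤ (range fun i => (d i : ℤ) • b i)

@[ext] structure Aff (F : Type) [Field F] where
  t : F
  s : Fˣ

variable {F : Type} [Field F]

instance : Group (Aff F) where
  mul x y := ⟨x.t + x.s * y.t, x.s * y.s⟩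
  one := ⟨0, 1⟩
  inv x := ⟨-((x.s⁻¹ : Fˣ) * x.t), x.s⁻¹⟩
  mul_assoc x y z := Aff.ext
    (show x.t + x.s * y.t + (x.s * y.s : Fˣ) * z.t = x.t + x.s * (y.t + y.s * z.t) by
      push_cast; ring) (mul_assoc _ _ _)
  one_mul x := Aff.ext (show 0 + ((1 : Fˣ) : F) * x.t = x.t by simp) (one_mul _)
  mul_one x := Aff.ext (show x.t + x.s * 0 = x.t by simp) (mul_one _)
  inv_mul_cancel x := Aff.ext
    (show -((x.s⁻¹ : Fˣ) * x.t) + (x.s⁻¹ : Fˣ) * x.t = 0 by ring) (inv_mul_cancel _)

@[simp] lemma mul_t (x y : Aff F) : (x * y).t = x.t + x.s * y.t := rfl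
@[simp] lemma mul_s (x y : Aff F) : (x * y).s = x.s * y.s := rfl
@[simp] lemma one_t : (1 : Aff F).t = 0 := rfl
@[simp] lemma one_s : (1 : Aff F).s = 1 := rfl
@[simp] lemma inv_t (x : Aff F) : (x⁻¹).t = -((x.s⁻¹ : Fˣ) * x.t) := rfl
@[simp] lemma inv_s (x : Aff F) : (x⁻¹).s = x.s⁻¹ := rfl

instance [Finite F] : Finite (Aff F) :=
  Finite.of_injective (fun x : Aff F => (x.t, x.s)) fun _ _ h =>
    Aff.ext (congrArg Prod.fst h) (congrArg Prod.snd h)

def tr {n : ℕ} : Multiplicative (Fin n → F) →* (Fin n → Aff F) where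
  toFun w := fun v => ⟨w.toAdd v, 1⟩
  map_one' := rfl
  map_mul' x y := by ext v <;> simp

lemma tr_inj {n : ℕ} : Function.Injective (tr (F := F) (n := n)) := fun _ _ h =>
  Multiplicative.toAdd.injective (funext fun v => congrArg Aff.t (congrFun h v))

lemma comm_eq (x y : Aff F) :
    x * y * x⁻¹ * y⁻¹ = ⟨(1 - y.s) * x.t + (x.s - 1) * y.t, 1⟩ := by
  ext
  · simp; field_simp; ring
  · simp

lemma mem_comm {l : Fˣ} (hl : (l : F) ≠ 1) (x : Aff F) : x ∈ commutator (Aff F) ↔ x.s = 1 := by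
  constructor
  · intro hx
    let f : Aff F →* Fˣ := ⟨⟨Aff.s, rfl⟩, fun _ _ => rfl⟩
    exact Abelianization.commutator_subset_ker f hx
  · intro hx
    have h1 : (1 - l : F) ≠ 0 := sub_ne_zero.2 hl.symm
    have : x = ⁅(⟨x.t / (1 - l), 1⟩ : Aff F), (⟨0, l⟩ : Aff F)⁆ := by
      rw [commutatorElement_def, comm_eq]
      ext
      · simp; field_simp
      · simp [hx]
    rw [this]
    exact Subgroup.commutator_mem_commutator (Subgroup.mem_top _) (Subgroup.mem_top _)

lemma comm_pw {n : ℕ} (x y : Aff F) (S T : Set (Fin n)) :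
    pw x S * pw y T * (pw x S)⁻¹ * (pw y T)⁻¹ = tr (Multiplicative.ofAdd
      (((1 - y.s) * x.t + (x.s - 1) * y.t) • (S ∩ T).indicator (1 : Fin n → F))) := by
  funext v
  simp only [Pi.mul_apply, Pi.inv_apply, comm_eq, pw]
  by_cases h1 : v ∈ S <;> by_cases h2 : v ∈ T <;> simp [tr, h1, h2]

lemma commB_eq {n : ℕ} (Γ : SimpleGraph (Fin n)) {l : Fˣ} (hl : (l : F) ≠ 1) :
    commB (Aff F) Γ = (AddSubgroup.toSubgroup (Submodule.span F
      {x : Fin n → F | ∃ u v, x = (nb Γ u ∩ nb Γ v).indicator 1}).toAddSubgroup).map tr := by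
  apply le_antisymm
  · rw [commB, Subgroup.closure_le]
    rintro _ ⟨g, h, v, w, rfl⟩
    rw [comm_pw]
    refine ⟨_, ?_, rfl⟩
    exact Submodule.smul_mem (Submodule.span F
      {x : Fin n → F | ∃ u v, x = (nb Γ u ∩ nb Γ v).indicator 1}) _
      (Submodule.subset_span ⟨v, w, rfl⟩)
  · rintro _ ⟨x, hx, rfl⟩
    have key : ∀ y ∈ Submodule.span F {x : Fin n → F | ∃ u v, x = (nb Γ u ∩ nb Γ v).indicator 1},
        ∀ c : F, tr (Multiplicative.ofAdd (c • y)) ∈ commB (Aff F) Γ := by
      intro y hy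
      induction hy using Submodule.span_induction with
      | zero => intro c; simp
      | add x y _ _ hx hy => intro c; rw [smul_add, ofAdd_add, map_mul]; exact mul_mem (hx c) (hy c)
      | smul r x _ hx => intro c; rw [smul_smul]; exact hx _
      | mem y hy =>
        obtain ⟨u, v, rfl⟩ := hy
        intro c
        have h1 : (1 - l : F) ≠ 0 := sub_ne_zero.2 hl.symm
        refine Subgroup.subset_closure ⟨⟨c / (1 - l), 1⟩, ⟨0, l⟩, u, v, ?_⟩
        rw [comm_pw]
        congr 3
        simp; field_simp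
    have := key _ hx 1
    rw [one_smul] at this
    exact this

lemma nb_symm {n : ℕ} (Γ : SimpleGraph (Fin n)) (u v : Fin n) : u ∈ nb Γ v ↔ v ∈ nb Γ u := by
  simp only [nb, mem_ofPred_eq, Γ.adj_comm u v, eq_comm]

lemma ra {n : ℕ} (Γ : SimpleGraph (Fin n)) (hΓ : Function.Injective (nb Γ)) {l : Fˣ}
    (hl : (l : F) ≠ 1) : IsRA (Aff F) Γ := by
  classical
  let W : Submodule F (Fin n → F) :=
    { carrier := {w | ∀ c : F, tr (Multiplicative.ofAdd (c • w)) ∈ graphPow (Aff F) Γ}
      zero_mem' := fun c => by simp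
      add_mem' := fun hx hy c => by
        rw [smul_add, ofAdd_add, map_mul]; exact mul_mem (hx c) (hy c)
      smul_mem' := fun r x hx c => by rw [smul_smul]; exact hx _ }
  have h1 : (l - 1 : F) ≠ 0 := sub_ne_zero.2 hl
  have hN : ∀ v, (nb Γ v).indicator (1 : Fin n → F) ∈ W := fun v c =>
    Subgroup.subset_closure ⟨⟨c, 1⟩, v, by
      funext w
      by_cases h : w ∈ nb Γ v
      · simp [tr, pw, h]
      · simp only [tr, pw, h]; ext <;> simp [h]⟩
  have hM : ∀ u, ∀ w ∈ W, (nb Γ u).indicator w ∈ W := fun u w hw c => by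
    have hg : pw (⟨0, l⟩ : Aff F) (nb Γ u) ∈ graphPow (Aff F) Γ :=
      Subgroup.subset_closure ⟨_, u, rfl⟩
    have h2 := hw (c / (l - 1))
    convert mul_mem (mul_mem (mul_mem hg h2) (inv_mem hg)) (inv_mem h2) using 1
    funext v
    simp only [Pi.mul_apply, Pi.inv_apply, comm_eq, pw]
    by_cases h : v ∈ nb Γ u
    · simp [tr, h]; field_simp
    · simp [tr, h]
  have hS : ∀ v, ∀ s : Finset (Fin n), ∃ w ∈ W, w v = 1 ∧ ∀ x ∈ s, x ≠ v → w x = 0 := by
    intro v s
    induction s using Finset.induction_on with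
    | empty => exact ⟨_, hN v, by simp [nb], by simp⟩
    | insert x s _ ih =>
      obtain ⟨w, hw, h2, h3⟩ := ih
      by_cases hx : x = v
      · exact ⟨w, hw, h2, fun y hy hv => h3 y (by
          rcases Finset.mem_insert.1 hy with rfl | h
          · exact absurd hx hv
          · exact h) hv⟩
      · obtain ⟨u, hu⟩ : ∃ u, ¬ (x ∈ nb Γ u ↔ v ∈ nb Γ u) := by
          by_contra hc
          push Not at hc
          exact hx (hΓ (Set.ext fun u => by rw [nb_symm, hc, nb_symm]))
        by_cases hv : v ∈ nb Γ u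
        · have hx' : x ∉ nb Γ u := fun h => hu (iff_of_true h hv)
          refine ⟨_, hM u w hw, by simp [hv, h2], fun y hy hyv => ?_⟩
          rcases Finset.mem_insert.1 hy with rfl | h
          · simp [hx']
          · by_cases h' : y ∈ nb Γ u <;> simp [h', h3 y h hyv]
        · have hx' : x ∈ nb Γ u := by by_contra h; exact hu (iff_of_false h hv)
          refine ⟨_, sub_mem hw (hM u w hw), by simp [hv, h2], fun y hy hyv => ?_⟩
          rcases Finset.mem_insert.1 hy with rfl | h
          · simp [hx']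
          · by_cases h' : y ∈ nb Γ u <;> simp [h', h3 y h hyv]
  have hW : ∀ w, w ∈ W := fun w => by
    rw [pi_eq_sum_univ w]
    refine Submodule.sum_mem _ fun v _ => Submodule.smul_mem _ _ ?_
    obtain ⟨z, hz, h2, h3⟩ := hS v Finset.univ
    convert hz using 1
    funext y
    by_cases h : v = y
    · simp [← h, h2]
    · simp [h, h3 y (Finset.mem_univ _) (Ne.symm h)]
  intro x hx
  have := hW (fun v => (x v).t) 1
  convert this using 1
  funext v
  ext
  · simp [tr]
  · simp [tr, (mem_comm hl _).1 (hx v (mem_univ v))]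

lemma rank_eq {n : ℕ} (Γ : SimpleGraph (Fin n)) (d : Fin n → ℕ) (hd : IsSmith Γ d)
    (hF : ∀ i, d i ≠ 1 → (d i : F) = 0) :
    finrank F (Submodule.span F {x : Fin n → F | ∃ u v, x = (nb Γ u ∩ nb Γ v).indicator 1}) =
      n - (Finset.univ.filter fun i => d i ≠ 1).card := by
  classical
  obtain ⟨-, b, hb⟩ := hd
  let φ : (Fin n → ℤ) →ₗ[ℤ] (Fin n → F) := (Algebra.linearMap ℤ F).compLeft (Fin n)
  have hφ : ∀ x v, φ x v = (x v : F) := fun _ _ => rfl
  have hspan : ∀ S : Set (Fin n → ℤ),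
      Submodule.span F (φ '' (Submodule.span ℤ S : Set _)) = Submodule.span F (φ '' S) := by
    intro S
    rw [← Submodule.map_coe, Submodule.map_span, Submodule.span_span_of_tower]
  have h1 : {x : Fin n → F | ∃ u v, x = (nb Γ u ∩ nb Γ v).indicator 1} =
      φ '' {x | ∃ u v, x = (nb Γ u ∩ nb Γ v).indicator 1} := by
    have e : ∀ S : Set (Fin n), φ (S.indicator 1) = S.indicator 1 := fun S => by
      funext v; rw [hφ]; by_cases h : v ∈ S <;> simp [h]
    ext x
    constructor
    · rintro ⟨u, v, rfl⟩; exact ⟨_, ⟨u, v, rfl⟩, e _⟩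
    · rintro ⟨_, ⟨u, v, rfl⟩, rfl⟩; exact ⟨u, v, e _⟩
  have htop : ⊤ ≤ Submodule.span F (range fun i => φ (b i)) := by
    have : (range fun i => φ (b i)) = φ '' range b := by rw [← range_comp]; rfl
    rw [this, ← hspan, b.span_eq]
    intro w _
    rw [pi_eq_sum_univ w]
    refine Submodule.sum_mem _ fun v _ => Submodule.smul_mem _ _ (Submodule.subset_span
      ⟨fun j => if v = j then 1 else 0, trivial, ?_⟩)
    funext j; rw [hφ]; split_ifs <;> simp
  have hli : LinearIndependent F fun i => φ (b i) :=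
    linearIndependent_of_top_le_span_of_card_eq_finrank htop (by simp)
  have hli' := hli.comp (fun i : {i // d i = 1} => i.1) Subtype.val_injective
  have h2 : Submodule.span F (φ '' range fun i => (d i : ℤ) • b i) =
      Submodule.span F (range ((fun i => φ (b i)) ∘ fun i : {i // d i = 1} => i.1)) := by
    apply le_antisymm <;> rw [Submodule.span_le]
    · rintro _ ⟨_, ⟨i, rfl⟩, rfl⟩
      by_cases hi : d i = 1
      · exact Submodule.subset_span ⟨⟨i, hi⟩, by simp [hi]⟩
      · have : φ ((d i : ℤ) • b i) = 0 := by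
          funext v; rw [hφ]; simp [hF i hi]
        simp only [this]; exact Submodule.zero_mem _
    · rintro _ ⟨⟨i, hi⟩, rfl⟩
      exact Submodule.subset_span ⟨_, ⟨i, rfl⟩, by simp [hi]⟩
  rw [h1, ← hspan, hb, hspan, h2, finrank_span_eq_card hli', Fintype.card_subtype]
  have := Finset.card_filter_add_card_filter_not (s := (Finset.univ : Finset (Fin n)))
    fun i => d i = 1
  simp only [Finset.card_univ, Fintype.card_fin] at this
  simp only [ne_eq]
  omega

lemma main {n : ℕ} (Γ : SimpleGraph (Fin n)) (d : Fin n → ℕ) (hd : IsSmith Γ d)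
    (hF : ∀ i, d i ≠ 1 → (d i : F) = 0) {l : Fˣ} (hl : (l : F) ≠ 1) :
    Nonempty (commB (Aff F) Γ ≃*
      (Fin (n - (Finset.univ.filter fun i => d i ≠ 1).card) → commutator (Aff F))) := by
  rw [commB_eq Γ hl]
  set U := Submodule.span F {x : Fin n → F | ∃ u v, x = (nb Γ u ∩ nb Γ v).indicator 1}
  have e1 := ((AddSubgroup.toSubgroup U.toAddSubgroup).equivMapOfInjective tr tr_inj).symm
  have e2 : U ≃ₗ[F] (Fin (n - (Finset.univ.filter fun i => d i ≠ 1).card) → F) :=
    LinearEquiv.ofFinrankEq _ _ (by rw [rank_eq Γ d hd hF]; simp)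
  let e3 : Multiplicative F ≃* commutator (Aff F) :=
    { toFun := fun c => ⟨⟨c.toAdd, 1⟩, (mem_comm hl _).2 rfl⟩
      invFun := fun x => Multiplicative.ofAdd x.1.t
      left_inv := fun _ => rfl
      right_inv := fun x => Subtype.ext (Aff.ext rfl ((mem_comm hl _).1 x.2).symm)
      map_mul' := fun x y => Subtype.ext (by ext <;> simp) }
  let e4 : AddSubgroup.toSubgroup U.toAddSubgroup ≃* Multiplicative U :=
    { toFun := fun x => Multiplicative.ofAdd ⟨x.1.toAdd, x.2⟩
      invFun := fun x => ⟨Multiplicative.ofAdd x.toAdd.1, x.toAdd.2⟩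
      left_inv := fun _ => rfl
      right_inv := fun _ => rfl
      map_mul' := fun _ _ => rfl }
  exact ⟨e1.trans (e4.trans ((AddEquiv.toMultiplicative e2.toAddEquiv).trans
    ((MulEquiv.funMultiplicative _ _).trans (MulEquiv.piCongrRight fun _ => e3))))⟩

theorem result :
    (∀ (n : ℕ) (Γ : SimpleGraph (Fin n)) (d : Fin n → ℕ), IsSmith Γ d →
      ((∃ (G : Type) (_ : Group G), Finite G ∧ (∃ a b : G, a * b ≠ b * a) ∧
        Nonempty (commB G Γ ≃*
          (Fin (n - (Finset.univ.filter fun i => d i ≠ 1).card) → commutator G)) ∧ IsRA G Γ) ↔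
        Function.Injective (nb Γ))) ∧
    IsSmith (⊤ : SimpleGraph (Fin 2)) ![1, 0] ∧
    ¬ Function.Injective (nb (⊤ : SimpleGraph (Fin 2))) := by
  have hK : ∀ v, nb (⊤ : SimpleGraph (Fin 2)) v = univ := fun v => by
    ext w; simp only [nb, mem_ofPred_eq, SimpleGraph.top_adj, mem_univ, iff_true]
    by_cases h : w = v
    · exact Or.inl h
    · exact Or.inr (Ne.symm h)
  refine ⟨fun n Γ d hd => ⟨?_, fun hΓ => ?_⟩, ⟨by decide, ?_⟩, fun h => ?_⟩
  · rintro ⟨G, _, -, ⟨a, b, hab⟩, -, hRA⟩ u v huv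
    by_contra hne
    have key : ∀ x ∈ graphPow G Γ, x u = x v := by
      intro x hx
      induction hx using Subgroup.closure_induction with
      | one => rfl
      | mul x y _ _ hx hy => simp [hx, hy]
      | inv x _ hx => simp [hx]
      | mem x hx =>
        obtain ⟨g, w, rfl⟩ := hx
        have : u ∈ nb Γ w ↔ v ∈ nb Γ w := by rw [nb_symm Γ u w, nb_symm Γ v w, huv]
        by_cases h : v ∈ nb Γ w
        · simp only [pw, if_pos h, if_pos (this.2 h)]
        · simp only [pw, if_neg h, if_neg (mt this.1 h)]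
    have hm : pw ⁅a, b⁆ {u} ∈ Subgroup.pi univ (fun _ : Fin n => commutator G) := by
      intro w _
      simp only [pw]
      split_ifs
      · exact Subgroup.commutator_mem_commutator (Subgroup.mem_top _) (Subgroup.mem_top _)
      · exact (commutator G).one_mem
    have := key _ (hRA hm)
    simp only [pw, mem_singleton_iff, if_true, if_neg (Ne.symm hne)] at this
    exact hab (commutatorElement_eq_one_iff_mul_comm.1 this)
  · obtain ⟨p, hp, hpd⟩ : ∃ p : ℕ, p.Prime ∧ ∀ i, d i ≠ 1 → p ∣ d i := by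
      by_cases h : (Finset.univ.filter fun i => d i ≠ 1).Nonempty
      · obtain ⟨p, hp, h2⟩ := Nat.exists_prime_and_dvd
          (Finset.mem_filter.1 (Finset.min'_mem _ h)).2
        exact ⟨p, hp, fun i hi => h2.trans (hd.1 _ _ (Finset.min'_le _ _ (by simpa using hi)))⟩
      · exact ⟨2, Nat.prime_two, fun i hi => absurd ⟨i, by simpa using hi⟩ h⟩
    have := Fact.mk hp
    obtain ⟨l, hl⟩ : ∃ l : (GaloisField p 2)ˣ, l ≠ 1 := by
      have h1 : Nat.card (GaloisField p 2)ˣ = p ^ 2 - 1 := by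
        rw [Nat.card_units, GaloisField.card p 2 two_ne_zero]
      have h2 := hp.two_le
      have : 1 < Nat.card (GaloisField p 2)ˣ := by
        have : 4 ≤ p ^ 2 := by nlinarith
        omega
      have := Finite.one_lt_card_iff_nontrivial.1 this
      exact exists_ne 1
    have hl' : (l : GaloisField p 2) ≠ 1 := fun h => hl (Units.ext h)
    refine ⟨Aff (GaloisField p 2), inferInstance, inferInstance, ⟨⟨1, 1⟩, ⟨0, l⟩, fun h => ?_⟩,
      main Γ d hd (fun i hi => (CharP.cast_eq_zero_iff _ p _).2 (hpd i hi)) hl', ra Γ hΓ hl'⟩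
    have := congrArg Aff.t h
    simp at this
    exact hl' this.symm
  · let e : (Fin 2 → ℤ) ≃ₗ[ℤ] (Fin 2 → ℤ) :=
      { toFun := fun x => ![x 0, x 0 + x 1]
        invFun := fun x => ![x 0, x 1 - x 0]
        map_add' := fun x y => by ext i; fin_cases i <;> simp; ring
        map_smul' := fun c x => by ext i; fin_cases i <;> simp; ring
        left_inv := fun x => by ext i; fin_cases i <;> simp
        right_inv := fun x => by ext i; fin_cases i <;> simp }
    refine ⟨(Pi.basisFun ℤ (Fin 2)).map e, ?_⟩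
    have h0 : ((Pi.basisFun ℤ (Fin 2)).map e) 0 = 1 := by
      ext i; fin_cases i <;> simp [e]
    apply le_antisymm <;> rw [Submodule.span_le]
    · rintro _ ⟨u, v, rfl⟩
      exact Submodule.subset_span ⟨0, by simp only [h0, hK]; simp⟩
    · rintro _ ⟨i, rfl⟩
      fin_cases i
      · exact Submodule.subset_span ⟨0, 0, by simp only [Fin.zero_eta, h0, hK]; simp⟩
      · simp
  · exact absurd (h ((hK 0).trans (hK 1).symm)) (by decide)

end Pool.Agent.Results.MP_8f3806_al.TwinFree
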